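import Pool.Agent.AT2.Stmts
import Pool.Agent.Helper3_AT3.DUG
import Pool.Agent.Helper34_K9.INX

/-!
# Squad AT2, row STG: no pair `(y, b)`, `y ^ ℓ ≠ 1`, is conjugate to `(y ^ (1 + ℓ), b)`
(adapted from row NST of squad AT3, `Helper3_AT3/DUG.lean`)
-/

open scoped BigOperators

set_option autoImplicit false

noncomputable section

namespace Pool.Agent.PP.T2.H81

open Pool.Agent.Helper51_AWC Pool.Agent.Helper79_WRA Pool.Agent.PP Pool.Agent.PP.KF
open Pool.Agent.PP.K9 Pool.Agent.PP.K9.H97 Pool.Agent.PP.T3 Pool.Agent.PP.T2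

attribute [local instance] Ideal.Quotient.field

/-- the `|T : C(V)|`-th power of an element of `T` centralises `V` -/
theorem pow_ix {G : Type} [Group G] [Finite G] {F : Type} [Field F] (V : Subgroup G) (γ : G → F)
    {t : G} (ht : t ∈ Tg V γ) : t ^ ix V γ ∈ Subgroup.centralizer (V : Set G) := by
  have hn : ((Subgroup.centralizer (V : Set G)).subgroupOf (Tg V γ)).Normal := by
    refine ⟨?_⟩
    rintro ⟨x, hx⟩ hxc ⟨s, hs⟩
    rw [Subgroup.mem_subgroupOf] at hxc ⊢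
    change s * x * s⁻¹ ∈ Subgroup.centralizer (V : Set G)
    change x ∈ Subgroup.centralizer (V : Set G) at hxc
    rw [Subgroup.mem_centralizer_iff] at hxc ⊢
    intro v hv
    have hsN : s ∈ Subgroup.normalizer (V : Set G) := (Subgroup.mem_inf.1 hs).1
    have h1 : s⁻¹ * v * s ∈ V := by
      have h2 := (Subgroup.mem_normalizer_iff.1 (Subgroup.inv_mem _ hsN) v).1 hv
      rwa [inv_inv] at h2
    have h3 := hxc _ h1
    calc v * (s * x * s⁻¹) = s * ((s⁻¹ * v * s) * x) * s⁻¹ := by group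
      _ = s * (x * (s⁻¹ * v * s)) * s⁻¹ := by rw [h3]
      _ = s * x * s⁻¹ * v := by group
  have h := Subgroup.pow_index_mem ((Subgroup.centralizer (V : Set G)).subgroupOf (Tg V γ)) ⟨t, ht⟩
  rw [Subgroup.mem_subgroupOf] at h
  exact h

/-- STG -/
theorem stg (dug : DugStmt) (lpw : LpwStmt) (fus : FusStmt) (lcj : LcjStmt) : StgStmt := by
  intro ℓ hfact M _ hM G _ _ N hN e V γ hL y hyl hy1 b hb heb g hg hgb
  have hF : GoodF ℓ (FF M) := H50.fld ℓ hfact.out M hM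
  have hpr : ℓ.Prime := hfact.out
  have hC : Subgroup.centralizer ((Subgroup.zpowers y : Subgroup G) : Set G) = Cu y := by
    ext x
    rw [Subgroup.mem_centralizer_iff, Subgroup.mem_centralizer_singleton_iff]
    constructor
    · intro h
      exact (h y (Subgroup.mem_zpowers y)).symm
    · intro h z hz
      obtain ⟨k, rfl⟩ := Subgroup.mem_zpowers_iff.1 hz
      exact ((show Commute x y from h).zpow_right k).eq.symm
  have hQ : IsPGroup ℓ (Subgroup.zpowers y) := by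
    obtain ⟨n, hn⟩ := hyl
    rintro ⟨z, hz⟩
    obtain ⟨k, rfl⟩ := Subgroup.mem_zpowers_iff.1 hz
    refine ⟨n, Subtype.ext ?_⟩
    show (y ^ k) ^ ℓ ^ n = 1
    rw [← zpow_natCast, ← zpow_mul, mul_comm, zpow_mul, zpow_natCast, hn, one_zpow]
  obtain ⟨P, hQP, hPC, hP, hPV, hgP⟩ := dug ℓ M hM G e hL.blk V hL.tp hL.ab (Subgroup.zpowers y) hQ
    b (by rw [hC]; exact hb) (by rw [hC]; exact heb)
  have hyP : y ∈ P := hQP (Subgroup.mem_zpowers y)
  rw [hC] at hPC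
  have hbQ : Bx (Subgroup.centralizer ((Subgroup.zpowers y : Subgroup G) : Set G)) b := by
    rw [hC]
    exact hb
  have hunQ : mulF (br (Subgroup.zpowers y) e) b = b :=
    T3.H3.under_iff hbQ (by rw [hC]; exact heb)
  -- `P` is good for `e`
  have hCC : Subgroup.centralizer (P : Set G) ≤ Cu y := by
    rw [← hC]
    exact Subgroup.centralizer_le (show ((Subgroup.zpowers y : Subgroup G) : Set G) ⊆ P from hQP)
  have hinvP : H66.Inv P b := fun p hp t => C2.H3.ix_inv hb.ix (hPC hp) t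
  have hIb : Ix (Subgroup.centralizer (P : Set G)) (br P b) :=
    C2.H3.ix_br hF hP (fun z hz x => C2.H3.ix_inv hb.ix (hCC hz) x) hinvP hb.mul
  have hIQ : Ix (Subgroup.centralizer ((Subgroup.zpowers y : Subgroup G) : Set G))
      (br (Subgroup.zpowers y) e) :=
    C2.H3.ix_br hF hQ (fun z _ x => hL.blk.1.1 x z) (H66.IsCl.inv hL.blk.1.1 _) hL.blk.1.2
  have hinvQ : H66.Inv P (br (Subgroup.zpowers y) e) := fun p hp t =>
    C2.H3.ix_inv hIQ (by rw [hC]; exact hPC hp) t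
  have hPe : mulF (br P e) (br P b) = br P b := by
    have h1 := congrArg (br P) hunQ
    rwa [H66.br_mulF hF hP hinvQ hinvP, C2.H3.br_br hQP] at h1
  have hbrb : br P b ≠ 0 := C2.H3.br_ne_of_gd hgP
  have hGe : Gd e P := by
    apply C2.H3.gd_of_br'
    intro h0
    apply hbrb
    rw [← hPe, h0, H75.mulF_zero_left]
  -- the conjugate
  obtain ⟨k, hk⟩ := (K9.H69.fmg ℓ M hM G e hL.blk V hL.tp).1 P hP hGe
  have hPk : P = conjS k V := by
    refine Subgroup.eq_of_le_of_card_ge hk ?_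
    rw [card_conjS, hPV]
  obtain ⟨hL1, hix1⟩ := lcj ℓ (FF M) hF G e V γ hL k
  rw [← hPk] at hL1 hix1
  -- the block of `C(P)`
  obtain ⟨γ₀, hγ₀, hgγ, -⟩ := K9.H24.exists_blk
    (L := fun a : Subgroup.centralizer (P : Set G) → FF M => a) rfl
    (fun a b => rfl) hIb.idem (by
      intro h
      apply hbrb
      exact H75.eq_of_res hIb.supp (fun _ _ => rfl) h)
  obtain ⟨γ₁, hγ₁⟩ : ∃ γ₁ : G → FF M,
      γ₁ = H75.ext0 (Subgroup.centralizer (P : Set G)) γ₀ := ⟨_, rfl⟩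
  have hγs : ∀ x, x ∉ Subgroup.centralizer (P : Set G) → γ₁ x = 0 := by
    rw [hγ₁]
    exact H75.ext0_supp _ γ₀
  have hγC : (fun t : Subgroup.centralizer (P : Set G) => γ₁ t) = γ₀ := by
    rw [hγ₁]
    exact funext (H75.ext0_apply _ γ₀)
  have hBγ : Bx (Subgroup.centralizer (P : Set G)) γ₁ := ⟨hγs, by rw [hγC]; exact hγ₀⟩
  have hbγ : mulF (br P b) γ₁ = γ₁ := by
    apply H75.eq_of_res (H75.mulF_supp _ hIb.supp hγs) hγs
    rw [H75.mulF_res _ γ₁ hIb.supp, hγC, hgγ]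
  have heγ : mulF (br P e) γ₁ = γ₁ := by
    rw [← hbγ, ← H20.mulF_assoc, hPe]
  have hL2 : Ld ℓ e P γ₁ := ⟨hL.blk, hL1.tp, hL1.ab, hBγ, heγ⟩
  have hLc : Lc e P γ₁ y b := ⟨hb, heb, hbγ⟩
  -- `N` is prime to `ℓ`
  obtain ⟨n, hn⟩ := hyl
  obtain ⟨m, _, hm⟩ := (Nat.dvd_prime_pow hpr).1 (orderOf_dvd_of_pow_eq_one hn)
  have hm2 : 2 ≤ m := by
    by_contra h
    apply hy1
    apply orderOf_dvd_iff_pow_eq_one.1
    rw [hm]
    have h1 : m ≤ 1 := by omega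
    calc ℓ ^ m ∣ ℓ ^ 1 := pow_dvd_pow ℓ h1
      _ = ℓ := pow_one ℓ
  have hord : ℓ ^ 2 ∣ orderOf y := by
    rw [hm]
    exact pow_dvd_pow ℓ hm2
  have hord1 : ℓ ∣ orderOf y := (dvd_pow_self ℓ two_ne_zero).trans hord
  have hNℓ : ¬ ℓ ∣ N := by
    intro h
    have h1 : ℓ ∣ Nat.card G := hord1.trans (orderOf_dvd_natCard y)
    have h2 := Nat.dvd_gcd h h1
    rw [hN.cop.gcd_eq_one] at h2
    exact hpr.one_lt.ne' (Nat.dvd_one.1 h2)
  obtain ⟨-, hLcN⟩ := lpw ℓ (FF M) hF G e P γ₁ hL2 y hyP b hLc N hNℓ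
  obtain ⟨t, ht, hty⟩ := fus ℓ M hM G e P γ₁ hL2 (y ^ N) (P.pow_mem hyP N) y hyP b b hLcN hLc g hg
    hgb
  rw [hN.pow y ⟨n, hn⟩] at hty
  have hpow : ∀ k : ℕ, t ^ k * y * (t ^ k)⁻¹ = y ^ (1 + ℓ) ^ k := by
    intro k
    induction k with
    | zero => rw [pow_zero, pow_zero, pow_one, one_mul, inv_one, mul_one]
    | succ k ih =>
      calc t ^ (k + 1) * y * (t ^ (k + 1))⁻¹ = t ^ k * (t * y * t⁻¹) * (t ^ k)⁻¹ := by
            rw [pow_succ]
            group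
        _ = (t ^ k * y * (t ^ k)⁻¹) ^ (1 + ℓ) := by rw [hty, conj_pow]
        _ = y ^ (1 + ℓ) ^ (k + 1) := by rw [ih, ← pow_mul, pow_succ]
  have hcen := pow_ix P γ₁ ht
  have h1 : y ^ (1 + ℓ) ^ ix P γ₁ = y ^ 1 := by
    rw [← hpow (ix P γ₁), pow_one]
    have h2 := Subgroup.mem_centralizer_iff.1 hcen y hyP
    rw [← h2, mul_inv_cancel_right]
  have h3 : (1 + ℓ) ^ ix P γ₁ ≡ 1 [MOD ℓ ^ 2] := (pow_eq_pow_iff_modEq.1 h1).of_dvd hord
  have h4 : ∀ k : ℕ, (1 + ℓ) ^ k ≡ 1 + k * ℓ [MOD ℓ ^ 2] := by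
    intro k
    induction k with
    | zero => rw [pow_zero, Nat.zero_mul, Nat.add_zero]
    | succ k ih =>
      calc (1 + ℓ) ^ (k + 1) = (1 + ℓ) ^ k * (1 + ℓ) := pow_succ _ _
        _ ≡ (1 + k * ℓ) * (1 + ℓ) [MOD ℓ ^ 2] := ih.mul_right _
        _ = 1 + (k + 1) * ℓ + k * ℓ ^ 2 := by ring
        _ ≡ 1 + (k + 1) * ℓ [MOD ℓ ^ 2] := by
          have h5 : k * ℓ ^ 2 ≡ 0 [MOD ℓ ^ 2] := (Nat.modEq_zero_iff_dvd.2 (dvd_mul_left _ _))
          exact (Nat.ModEq.refl (1 + (k + 1) * ℓ)).add h5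
  have h5 : ix P γ₁ * ℓ ≡ 0 [MOD ℓ ^ 2] := by
    have h6 : 1 + ix P γ₁ * ℓ ≡ 1 + 0 [MOD ℓ ^ 2] := (h4 (ix P γ₁)).symm.trans h3
    exact Nat.ModEq.add_left_cancel' 1 h6
  have h6 : ℓ ∣ ix P γ₁ := by
    have h7 := Nat.modEq_zero_iff_dvd.1 h5
    rw [pow_two] at h7
    exact Nat.dvd_of_mul_dvd_mul_right hpr.pos h7
  exact K9.H34.inx ℓ M hM G e hL2.blk P hL2.tp hL2.ab γ₁ hL2.gam.supp hL2.gam.blk hL2.und h6

end Pool.Agent.PP.T2.H81
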