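import Pool.Agent.AT2.Stmts

/-!
# Squad AT2, row TYQ: the type of a quotient
-/

set_option autoImplicit false

noncomputable section

namespace Pool.Agent.PP.T2.H81

open Pool.Agent.PP.T2

/-- TYQ -/
theorem tyq : TyqStmt := by
  intro ℓ a G A _ _ _ _ V V' i i' hT hexp ⟨π, hπ⟩ hi
  refine ⟨hT.pos, hexp, lt_of_le_of_lt (Nat.card_le_card_of_surjective π hπ) hT.small, ?_⟩
  rcases hT.gen with h | ⟨x, y, hxy⟩
  · exact Or.inl (lt_of_le_of_lt hi h)
  · right
    have hx : x ∈ V := by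
      rw [hxy]
      exact Subgroup.subset_closure (by simp)
    have hy : y ∈ V := by
      rw [hxy]
      exact Subgroup.subset_closure (by simp)
    refine ⟨(π ⟨x, hx⟩ : A), (π ⟨y, hy⟩ : A), ?_⟩
    have h1 : Subgroup.closure ({⟨x, hx⟩, ⟨y, hy⟩} : Set V) = ⊤ := by
      have h2 : (Subgroup.closure ({⟨x, hx⟩, ⟨y, hy⟩} : Set V)).map V.subtype = V := by
        rw [MonoidHom.map_closure, Set.image_pair]
        exact hxy.symm
      rw [eq_top_iff]
      intro v _
      have h3 : (v : G) ∈ (Subgroup.closure ({⟨x, hx⟩, ⟨y, hy⟩} : Set V)).map V.subtype := by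
        rw [h2]
        exact v.2
      obtain ⟨w, hw, hwv⟩ := h3
      rwa [← Subtype.ext hwv]
    have h4 : (⊤ : Subgroup V).map (V'.subtype.comp π) = V' := by
      ext z
      constructor
      · rintro ⟨v, -, rfl⟩
        exact (π v).2
      · intro hz
        obtain ⟨v, hv⟩ := hπ ⟨z, hz⟩
        exact ⟨v, Subgroup.mem_top _, by rw [MonoidHom.comp_apply, hv]; rfl⟩
    calc V' = (⊤ : Subgroup V).map (V'.subtype.comp π) := h4.symm
      _ = (Subgroup.closure ({⟨x, hx⟩, ⟨y, hy⟩} : Set V)).map (V'.subtype.comp π) := by rw [h1]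
      _ = Subgroup.closure {(π ⟨x, hx⟩ : A), (π ⟨y, hy⟩ : A)} := by
        rw [MonoidHom.map_closure, Set.image_pair]
        rfl

end Pool.Agent.PP.T2.H81
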